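import Pool.Agent.V5helper39.WR.Stm

/-!
# PROJECT WR, job DEP2: dependence on the shifts

Written by helper18 (adapted from `U_dep` of helper39).
-/

set_option autoImplicit false

open Finset

namespace Pool.Agent.V5helper18.WR.DEP2

open Pool.Agent.V5helper39.WQ
open Pool.Agent.V5helper39.WR

theorem t_DEP2 : S_DEP2 := by
  intro k q m Y n r t t' hk hq hr h z hz hzV
  obtain ⟨x₁, x₂, h1, h2, hY1, hY2, hx1, hx2, rfl⟩ := hzV
  have ha1 := le_cc hk hq h1
  have ha2 := le_cc hk hq h2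
  have e1 : t x₁ = t' x₁ := by
    refine h x₁ (by omega) ?_
    unfold lev
    rw [hx1, Nat.div_eq_of_lt (hr 0)]
  have e2 : t x₂ = t' x₂ := by
    refine h x₂ (by omega) ?_
    unfold lev
    rw [hx2, Nat.div_eq_of_lt (hr 1)]
  exact ⟨x₁, x₂, h1, h2, hY1, hY2, hx1, hx2, by rw [e1, e2]⟩

end Pool.Agent.V5helper18.WR.DEP2
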